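import Mathlib
import Pool.Agent.H.MP_eab232_al.A
import Pool.Agent.H.MP_eab232_al.B

namespace Pool.Agent.Results.MP_eab232_al.PConj

open Relation List Pool.Agent.H.MP_eab232_al

variable {α : Type}

def Step (R : Set (List α × List α)) (u v : List α) : Prop :=
  ∃ p q x y, (x, y) ∈ R ∧ u = p ++ x ++ q ∧ v = p ++ y ++ q

def Monadic (R : Set (List α × List α)) : Prop :=
  ∀ r ∈ R, r.2.length ≤ 1 ∧ r.2.length < r.1.length

def Confluent (R : Set (List α × List α)) : Prop :=
  ∀ u v w, ReflTransGen (Step R) u v → ReflTransGen (Step R) u w →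
    ∃ z, ReflTransGen (Step R) v z ∧ ReflTransGen (Step R) w z

def rel (R : Set (List α × List α)) (x y : FreeMonoid α) : Prop := (x.toList, y.toList) ∈ R

def cls (R : Set (List α × List α)) (w : List α) : PresentedMonoid (rel R) :=
  PresentedMonoid.mk (rel R) (FreeMonoid.ofList w)

def PConj {M : Type} [Monoid M] (a b : M) : Prop := ∃ u v : M, a = u * v ∧ b = v * u

def Rm (μ : α → α → Option α) : Set (List α × List α) :=
  {r | ∃ a b c, μ a b = some c ∧ r = ([a, b], [c])}

theorem step_eq (μ : α → α → Option α) : Step (Rm μ) = St μ := by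
  funext u v
  rw [eq_iff_iff, st_iff]
  constructor
  · rintro ⟨p, q, _, _, ⟨a, b, c, h, ⟨⟩⟩, rfl, rfl⟩
    exact ⟨p, q, a, b, c, h, by simp, by simp⟩
  · rintro ⟨p, q, a, b, c, h, rfl, rfl⟩
    exact ⟨p, q, _, _, ⟨a, b, c, h, rfl⟩, by simp, by simp⟩

theorem cls_iff {μ : α → α → Option α} (H : Assoc μ) {a : List α} (ha : ∀ v, ¬ St μ a v)
    (u : List α) : cls (Rm μ) a = cls (Rm μ) u ↔ Red μ u a := by
  rw [cls, cls, PresentedMonoid.mk_eq_mk_iff]
  constructor
  · intro h
    have E := equivalence_join_reflTransGen (strong H)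
    let c : Con (FreeMonoid α) :=
      { r := fun x y => Join (Red μ) x.toList y.toList
        iseqv := ⟨fun _ => E.refl _, E.symm, E.trans⟩
        mul' := fun {w x y z} ⟨d, h1, h2⟩ ⟨e, h3, h4⟩ =>
          ⟨d ++ e, (Red.right h1 _).trans (Red.left h3 _), (Red.right h2 _).trans (Red.left h4 _)⟩ }
    have hle : conGen (rel (Rm μ)) ≤ c := Con.conGen_le.2 fun x y ⟨a, b, c, h, e⟩ => by
      obtain ⟨e1, e2⟩ := Prod.mk.inj e
      refine ⟨y.toList, .single ?_, .refl⟩
      rw [e1, e2]
      exact .head [] h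
    obtain ⟨d, h1, h2⟩ := hle h
    rcases h1.cases_head with h1 | ⟨v, h1, -⟩
    · obtain rfl : a = d := h1
      exact h2
    · exact (ha v h1).elim
  · intro h
    induction h using ReflTransGen.head_induction_on with
    | refl => exact Con.refl _ _
    | head s _ ih =>
      refine Con.trans _ ih (Con.symm _ ?_)
      obtain ⟨p, q, a, b, c, h, rfl, rfl⟩ := st_iff.1 s
      have h1 : conGen (rel (Rm μ)) (FreeMonoid.ofList [a, b]) (FreeMonoid.ofList [c]) :=
        ConGen.Rel.of _ _ ⟨a, b, c, h, rfl⟩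
      exact Con.mul _ (Con.refl _ (FreeMonoid.ofList p))
        (Con.mul _ h1 (Con.refl _ (FreeMonoid.ofList q)))

theorem pconj_iff {μ : α → α → Option α} (H : Assoc μ) {a b : List α} (ha : ∀ v, ¬ St μ a v)
    (hb : ∀ v, ¬ St μ b v) : PConj (cls (Rm μ) a) (cls (Rm μ) b) ↔
      ∃ u v, Red μ (u ++ v) a ∧ Red μ (v ++ u) b := by
  constructor
  · rintro ⟨u, v, h1, h2⟩
    obtain ⟨u, rfl⟩ := PresentedMonoid.surjective_mk u
    obtain ⟨v, rfl⟩ := PresentedMonoid.surjective_mk v
    exact ⟨u.toList, v.toList, (cls_iff H ha _).1 h1, (cls_iff H hb _).1 h2⟩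
  · rintro ⟨u, v, h1, h2⟩
    exact ⟨cls _ u, cls _ v, (cls_iff H ha _).2 h1, (cls_iff H hb _).2 h2⟩

theorem red_map {β : Type} {μ : α → α → Option α} {ν : β → β → Option β} (f : α → β)
    (hf : ∀ a b c, μ a b = some c → ν (f a) (f b) = some (f c)) {u v : List α} (h : Red μ u v) :
    Red ν (u.map f) (v.map f) := by
  induction h with
  | refl => exact .refl
  | tail _ h ih => exact ih.tail (h.map f hf)

theorem result : ∃ (n : ℕ) (R : Set (List (Fin n) × List (Fin n))),
    R.Finite ∧ Monadic R ∧ Confluent R ∧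
      ¬ ComputablePred fun p : List (Fin n) × List (Fin n) => PConj (cls R p.1) (cls R p.2) := by
  obtain ⟨I, C, _, _, h, g, x, m, y, hx, hP⟩ := pcp
  obtain ⟨L1, h1⟩ := (Set.finite_range fun a => (h a).length).bddAbove
  obtain ⟨L2, h2⟩ := (Set.finite_range fun a => (g a).length).bddAbove
  have hh : ∀ a, (h a).length ≤ max L1 L2 := fun a => le_max_of_le_left (h1 ⟨a, rfl⟩)
  have hg : ∀ a, (g a).length ≤ max L1 L2 := fun a => le_max_of_le_right (h2 ⟨a, rfl⟩)
  let e := Finite.equivFin (Lt I C (max L1 L2))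
  let μ := mu h g hh hg
  let ν : Fin _ → Fin _ → Option (Fin _) := fun a b => (μ (e.symm a) (e.symm b)).map e
  have f1 : ∀ a b c, μ a b = some c → ν (e a) (e b) = some (e c) := fun a b c H => by
    simp [ν, H]
  have f2 : ∀ a b c, ν a b = some c → μ (e.symm a) (e.symm b) = some (e.symm c) :=
    fun a b c H => by
      obtain ⟨d, h3, rfl⟩ := Option.map_eq_some_iff.1 H
      simpa using h3
  have hA : Assoc ν := fun a b c d d' H1 H2 => by
    obtain ⟨z, h3, h4⟩ := assoc h g hh hg _ _ _ _ _ (f2 _ _ _ H1) (f2 _ _ _ H2)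
    exact ⟨e z, by simpa using f1 _ _ _ h3, by simpa using f1 _ _ _ h4⟩
  have irr : ∀ a : List _, (∀ v, ¬ St μ a v) → ∀ v, ¬ St ν (a.map e) v := fun a ha v H =>
    ha _ (by simpa using H.map e.symm f2)
  refine ⟨_, Rm ν, ?_, ?_, ?_, fun H => hP ?_⟩
  · refine (Set.finite_range fun t : _ × _ × _ => (([t.1, t.2.1], [t.2.2]) : List _ × List _)).subset ?_
    rintro _ ⟨a, b, c, -, rfl⟩
    exact ⟨(a, b, c), rfl⟩
  · rintro _ ⟨a, b, c, -, rfl⟩
    simp
  · intro u v w
    rw [step_eq]
    exact church_rosser (strong hA)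
  · let m' := (m.map Lt.c).map e
    have hr : Primrec fun n : ℕ => (replicate n m').flatten := by
      refine Primrec.list_flatten.comp ((Primrec.list_map Primrec.list_range (g := fun _ _ => m')
        (Primrec.const m').to₂).of_eq fun n => ?_)
      simp
    have hc : Primrec fun n : ℕ => (([Lt.Xs e0, Lt.Y].map e, (Lt.X :: x.map Lt.c).map e ++
        (replicate n m').flatten ++ (y.map Lt.c ++ [Lt.Ys e0]).map e) : List _ × List _) :=
      (Primrec.const _).pair (Primrec.list_append.comp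
        (Primrec.list_append.comp (Primrec.const _) hr) (Primrec.const _))
    obtain ⟨f, hf, hf'⟩ := ComputablePred.computable_iff.1 H
    refine ComputablePred.computable_iff.2 ⟨_, hf.comp hc.to_comp, funext fun n => ?_⟩
    have e1 : (Lt.X :: x.map Lt.c).map e ++ (replicate n m').flatten ++
        (y.map Lt.c ++ [Lt.Ys e0]).map e =
        (Lt.X :: (x ++ (replicate n m).flatten ++ y).map Lt.c ++ [Lt.Ys e0]).map e := by
      simp [m']
    rw [← congrFun hf' _, e1, pconj_iff hA (irr _ (irrA h g hh hg)) (irr _ (irrB h g hh hg _)),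
      ← conj_iff h g hh hg _ (by simp [hx]), eq_iff_iff]
    constructor
    · rintro ⟨u, v, h3, h4⟩
      exact ⟨u.map e, v.map e, by simpa only [map_append] using red_map e f1 h3,
        by simpa only [← map_append] using red_map e f1 h4⟩
    · rintro ⟨u, v, h3, h4⟩
      exact ⟨u.map e.symm, v.map e.symm, by simpa using red_map e.symm f2 h3,
        by simpa [Function.comp_def] using red_map e.symm f2 h4⟩

end Pool.Agent.Results.MP_eab232_al.PConj
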